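import Pool.Agent.H34.GU.Defs
import Pool.Agent.H23.GZ.Targets5

/-!
Targets of the board gu (page H34_GU.md).
-/

namespace Pool.Agent.H34.GU

open MeasureTheory Pool.Agent.H34.GM Pool.Agent.H34.GZ

/-! ### algebra -/

/-- vectors modulo `N` -/
def T_ALU : Prop := ∀ (m N : ℕ) [NeZero N], 1 ≤ m → 2 ≤ N →
  (∀ x : VN m N, ac N (1 : ZM m) x = x) ∧
  (∀ (α β : ZM m) (x : VN m N), ac N (α * β) x = ac N α (ac N β x) ∧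
    ac N (α + β) x = ac N α x + ac N β x) ∧
  (∀ (γ : ZM m) (x : VN m N), IsUnit γ → (Pr (ac N γ x) ↔ Pr x)) ∧
  (∀ (α : ZM m) (x : VN m N), Pr (ac N α x) → Pr x) ∧
  Fintype.card (VN m N) = N ^ m ∧
  ∀ γ : ZM m, IsUnit γ → Function.Bijective (ac N γ : VN m N → VN m N)

/-- the additive character -/
def T_PSU : Prop := ∀ (m N : ℕ) [NeZero N], 1 ≤ m → 2 ≤ N →
  psn N 0 = 1 ∧ (∀ a b : ZMod N, psn N (a + b) = psn N a * psn N b) ∧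
  (∀ a : ZMod N, ‖psn N a‖ = 1) ∧ (∀ a : ZMod N, psn N (-a) = (starRingEnd ℂ) (psn N a)) ∧
  (∀ f : VN m N → ℂ, ∑ v : VN m N, ‖∑ y, psn N (dt v y) * f y‖ ^ 2 =
    (N : ℝ) ^ m * ∑ y, ‖f y‖ ^ 2)

/-- the kernel lattices -/
def T_KLI : Prop := ∀ (m N : ℕ) [NeZero N], 1 ≤ m → 2 ≤ N →
  (∀ x : VN m N, Pr x → (kl x).index = N) ∧
  ∀ M : AddSubgroup (Fin m → ℤ), {x : VN m N | Pr x ∧ kl x = M}.ncard ≤ N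

/-! ### forms -/

def T_LMU : Prop := ∀ (m N : ℕ) [NeZero N] (T : ℕ → Finset (ZM m)) (D : Set (V m)),
  SysZ m N T D → ∀ (F : Mat m → VN m N → ℂ) (lam : ℕ → ℂ) (mu : Fin m → ℂ),
  EigU m N T F lam mu → NZ F →
    ∃ C : ℝ, 0 ≤ C ∧ ∀ n : ℕ, 1 ≤ n →
      ‖(n : ℂ) ^ (((m : ℂ) - 1) / 2) * lam n‖ ≤ C * (n : ℝ) ^ m

/-- one double coset -/
def T_EZU : Prop := ∀ (m N : ℕ) [NeZero N] (T : ℕ → Finset (ZM m)) (D : Set (V m)),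
  SysZ m N T D → ∀ (F : Mat m → VN m N → ℂ) (lam : ℕ → ℂ) (mu : Fin m → ℂ),
  EigU m N T F lam mu →
  ∀ Φ : Mat m → ℂ, Tst m Φ → ∀ (ρ g : Mat m) (r : ℝ) (y : VN m N), ρ.det ≠ 0 → g.det ≠ 0 →
    0 < r →
    IntegrableOn (fun z : V m => Φ (kk r (mt z) ρ g) * F (mt z) y) (Shell m) (hm m) ∧
    ∫ z in Shell m, Φ (kk r (mt z) ρ g) * F (mt z) y ∂(hm m) =
      th1 Φ mu (r * (aN ρ)⁻¹) * F (ρ * g) y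

/-- forms are eigenfunctions of `A_r` -/
def T_EIU : Prop := ∀ (m N : ℕ) [NeZero N] (T : ℕ → Finset (ZM m)) (D : Set (V m)),
  SysZ m N T D → ∀ (F : Mat m → VN m N → ℂ) (lam : ℕ → ℂ) (mu : Fin m → ℂ),
  EigU m N T F lam mu →
  ∀ Φ : Mat m → ℂ, Tst m Φ → ∀ (g : Mat m) (r : ℝ) (x : VN m N), g.det ≠ 0 → 0 < r →
    opAu N Φ r D F g x = thF 1 Φ mu lam r * F g x

/-- forms are eigenfunctions of `opCu` -/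
def T_OCU : Prop := ∀ (m N : ℕ) [NeZero N] (T : ℕ → Finset (ZM m)) (D : Set (V m)),
  SysZ m N T D → ∀ (F : Mat m → VN m N → ℂ) (lam : ℕ → ℂ) (mu : Fin m → ℂ),
  EigU m N T F lam mu → ∀ Φ : Mat m → ℂ, Tst m Φ → ∀ (y : ℝ) (g : Mat m) (x : VN m N),
  g.det ≠ 0 → opCu N Φ y D F g x = th1 Φ mu 1 * DF m 1 lam y * F g x

/-- the a priori bound for the parameters -/
def T_APU : Prop := ∀ (m N : ℕ) [NeZero N] (T : ℕ → Finset (ZM m)) (F : Mat m → VN m N → ℂ)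
  (lam : ℕ → ℂ) (mu : Fin m → ℂ), 1 ≤ m → EigU m N T F lam mu → NZ F →
  ∀ j, (mu j).re ≤ ((m : ℝ) - 1) / 2

/-! ### the functional equation -/

open Classical in
/-- Poisson summation -/
def T_POU : Prop := ∀ (m N : ℕ) [NeZero N], 1 ≤ m → 2 ≤ N → ∀ Φ : Mat m → ℂ, TstS m Φ →
  ∀ (g h : Mat m) (r : ℝ) (x y : VN m N), g.det ≠ 0 → h.det ≠ 0 → 0 < r → Pr x →
    ∑' α : ZM m, (if ac N α x = y then Φ (kk r h (cR α) g) else 0) =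
      ((r ^ (m ^ 2) / (N : ℝ) ^ m : ℝ) : ℂ) *
        ∑ v : VN m N, psn N (dt v y) * ∑' β : ZM m,
          if cQ N β = Matrix.vecMulVec x v then ft Φ (kk ((N : ℝ) / r) g (cR β) h) else 0

/-- the Fricke correspondence -/
def T_FR1 : Prop := ∀ (m N : ℕ) [NeZero N], 1 ≤ m → 2 ≤ N →
  ∃ (H : VN m N → ZM m) (xv : VN m N → VN m N), Frk m N H xv

open Classical in
/-- it preserves the measure -/
def T_FR2 : Prop := ∀ (m N : ℕ) [NeZero N], 1 ≤ m → 2 ≤ N →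
  ∀ (H : VN m N → ZM m) (xv : VN m N → VN m N), Frk m N H xv → ∀ D : Set (V m), DomZ m D →
  ∀ f : V m → VN m N → ENNReal, (∀ x, Measurable (fun z => f z x)) →
  (∀ γ : ZM m, IsUnit γ → ∀ (z : V m) (x : VN m N), (mt z).det ≠ 0 →
    f (fun i j => (cR γ * mt z) i j) (ac N γ x) = f z x) →
  (∀ c : ℝ, 0 < c → ∀ (z : V m) (x : VN m N), f (c • z) x = f z x) →
    ∫⁻ z in D, ∑ v : VN m N, (if Pr v then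
      f (fun i j => (cR (H v) * mt z) i j) (xv v) else 0) ∂(hm m) ≤
    ∫⁻ z in D, ∑ x : VN m N, (if Pr x then f z x else 0) ∂(hm m)

open Classical in
/-- the pointwise identity -/
def T_ADQ : Prop := ∀ (m N : ℕ) [NeZero N], 1 ≤ m → 2 ≤ N → ∀ Φ : Mat m → ℂ, TstS m Φ →
  ∀ (H : VN m N → ZM m) (xv : VN m N → VN m N), Frk m N H xv →
  ∀ f f' : VN m N → ℂ, (∀ x, ¬ Pr x → f x = 0) → (∀ x, ¬ Pr x → f' x = 0) →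
  (∀ v : VN m N, ¬ Pr v → ∑ y, psn N (dt v y) * f y = 0) →
  ∀ (g h : Mat m) (r : ℝ), g.det ≠ 0 → h.det ≠ 0 → 0 < r →
    ∑ x, (∑' α : ZM m, Φ (kk r h (cR α) g) * f (ac N α x)) * (starRingEnd ℂ) (f' x) =
      ((r ^ (m ^ 2) / (N : ℝ) ^ m : ℝ) : ℂ) * ∑ v : VN m N, if Pr v then
        (∑ y, psn N (dt v y) * f y) *
          ∑' φ : ZM m, ft Φ (kk (kp m N / r) g (cR φ) (cR (H v) * h)) *
            (starRingEnd ℂ) (f' (ac N φ (xv v))) else 0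

/-- the dual eigenvalue is bounded by an eigenvalue -/
def T_ADU : Prop := ∀ (m N : ℕ) [NeZero N] (T : ℕ → Finset (ZM m)) (D : Set (V m)),
  SysZ m N T D → ∀ (F : Mat m → VN m N → ℂ) (lam : ℕ → ℂ) (mu : Fin m → ℂ),
  CuspU m N T F lam mu → nU D F ≠ 0 → ∀ Φ : Mat m → ℂ, TstS m Φ → ∀ r : ℝ, 0 < r →
    ‖thDu (kp m N) Φ mu lam r‖ ≤ ‖thF 1 (fun w => (starRingEnd ℂ) (ft Φ w)) mu lam r‖

/-- size of the eigenvalues for one form -/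
def T_SMU : Prop := ∀ (m N : ℕ) [NeZero N] (T : ℕ → Finset (ZM m)) (D : Set (V m)),
  SysZ m N T D → ∀ (F : Mat m → VN m N → ℂ) (lam : ℕ → ℂ) (mu : Fin m → ℂ),
  CuspU m N T F lam mu → nU D F ≠ 0 → ∀ Φ : Mat m → ℂ, TstS m Φ → ∀ N0 : ℕ, ∃ C : ℝ,
    (∀ r : ℝ, 0 < r → r ≤ 1 → ‖thDu (kp m N) Φ mu lam r‖ ≤ C * r ^ N0) ∧
    (∀ r : ℝ, 1 ≤ r → ‖thF 1 Φ mu lam r‖ ≤ C * r ^ (-(N0 : ℝ)))

/-! ### sums over the eigenvalues -/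

/-- the half of the Mellin integral in terms of the partial sums -/
def T_ABU : Prop := ∀ m : ℕ, 1 ≤ m → ∀ ε J : ℝ, 0 < ε → 0 ≤ J → ∃ (K : ℕ) (C : ℝ),
  (m : ℝ) ^ 2 / 2 + ε ≤ K ∧ 0 < C ∧
  ∀ (κ : ℝ) (Ψ : Mat m → ℂ) (mu : Fin m → ℂ) (lam : ℕ → ℂ) (M C1 : ℝ), 1 ≤ κ →
  ThB Ψ mu M ε K → (∀ n : ℕ, 1 ≤ n →
    ‖(n : ℂ) ^ (((m : ℂ) - 1) / 2) * lam n‖ ≤ C1 * (n : ℝ) ^ m) →
  ∫⁻ r in Set.Ioc (0 : ℝ) (Real.sqrt κ), ENNReal.ofReal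
      (‖thF 1 Ψ mu lam r‖ * r ^ (-((m : ℝ) ^ 2 / 2) - 1)) ≤
    ENNReal.ofReal (C * M * κ ^ (ε / 2)) * ∫⁻ y in Set.Ioi (1 : ℝ), ENNReal.ofReal
      (‖SF m 1 lam y‖ * y ^ (-((m : ℝ) / 2) - 1) * wK m κ J y)

/-- dyadic decomposition -/
def T_DYU : Prop := ∀ m : ℕ, 1 ≤ m → ∃ C : ℝ, 0 < C ∧ ∀ (κ J : ℝ) (lam : ℕ → ℂ),
  1 ≤ κ → 0 ≤ J →
  ∫⁻ y in Set.Ioi (1 : ℝ), ENNReal.ofReal
      (‖SF m 1 lam y‖ * y ^ (-((m : ℝ) / 2) - 1) * wK m κ J y) ≤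
    ENNReal.ofReal C * ∫⁻ y in Set.Ioi (1 : ℝ), ENNReal.ofReal
      (‖DF m 1 lam y‖ * y ^ (-((m : ℝ) / 2) - 1) * wK m κ J y)

/-- Hölder -/
def T_HLU : Prop := ∀ m : ℕ, 1 ≤ m → ∀ (ε : ℝ) (K0 : ℕ), 0 < ε → ∃ C : ℝ, 0 < C ∧
  ∀ (Q : ℝ) (ι : Type) [Fintype ι] (lam : ι → ℕ → ℂ) (κ : ι → ℝ) (B : ℝ), 1 ≤ Q → 0 ≤ B →
  (∀ i, 1 ≤ κ i ∧ Q ≤ κ i ^ m ∧ κ i ^ m ≤ 2 * Q) →
  (∀ y : ℝ, 1 ≤ y → ∑ i, ‖DF m 1 (lam i) y‖ ^ 4 ≤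
    B * (1 + Real.log y) ^ K0 * y ^ (2 * m) * (1 + y ^ 2 / Q) ^ m) →
  ∑ i, (∫⁻ y in Set.Ioi (1 : ℝ), ENNReal.ofReal
    (‖DF m 1 (lam i) y‖ * y ^ (-((m : ℝ) / 2) - 1) * wK m (κ i) (m + 1) y)) ^ 4 ≤
      ENNReal.ofReal (C * B * Q ^ ε)

/-- the two halves of the Mellin integral on the critical line -/
def T_SPV : Prop := ∀ (m : ℕ) (κ : ℝ) (lam : ℕ → ℂ) (mu : Fin m → ℂ), 1 ≤ m → 1 ≤ κ →
  ∑ j, mu j = 0 → ∀ Φ : Mat m → ℂ, Tst m Φ →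
  (∀ N : ℕ, ∃ C : ℝ, ∀ r : ℝ, 1 ≤ r → ‖thF 1 Φ mu lam r‖ ≤ C * r ^ (-(N : ℝ))) →
  IntegrableOn (fun r : ℝ => ‖thF 1 Φ mu lam r‖ * r ^ (-((m : ℝ) ^ 2 / 2) - 1))
    (Set.Ioc (0 : ℝ) (Real.sqrt κ)) ∧
  IntegrableOn (fun r : ℝ => ‖thDu κ Φ mu lam r‖ * r ^ (-((m : ℝ) ^ 2 / 2) - 1))
    (Set.Ioc (0 : ℝ) (Real.sqrt κ)) ∧
  ∀ t : ℝ,
    ‖Lm 1 Φ mu lam (1 / 2 + t * Complex.I)‖ ≤
      (∫ r in Set.Ioc (0 : ℝ) (Real.sqrt κ), ‖thF 1 Φ mu lam r‖ *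
        r ^ (-((m : ℝ) ^ 2 / 2) - 1)) +
      ∫ r in Set.Ioc (0 : ℝ) (Real.sqrt κ), ‖thDu κ Φ mu lam r‖ *
        r ^ (-((m : ℝ) ^ 2 / 2) - 1)

/-- one value on the critical line -/
def T_SPW : Prop := ∀ m : ℕ, 1 ≤ m → ∀ ε J : ℝ, 0 < ε → 0 ≤ J → ∃ (K : ℕ) (C : ℝ),
  (m : ℝ) ^ 2 / 2 + ε ≤ K ∧ 0 < C ∧
  ∀ (N : ℕ) [NeZero N] (T : ℕ → Finset (ZM m)) (D : Set (V m)), SysZ m N T D →
  ∀ (F : Mat m → VN m N → ℂ) (lam : ℕ → ℂ) (mu : Fin m → ℂ), CuspU m N T F lam mu →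
  nU D F ≠ 0 → ∀ (Φ : Mat m → ℂ) (M : ℝ), TstS m Φ → ThB Φ mu M ε K →
  ThB (fun w => (starRingEnd ℂ) (ft Φ w)) mu M ε K → ∀ t : ℝ,
  ENNReal.ofReal ‖Lm 1 Φ mu lam (1 / 2 + t * Complex.I)‖ ≤
    ENNReal.ofReal (C * M * kp m N ^ ε) * ∫⁻ y in Set.Ioi (1 : ℝ), ENNReal.ofReal
      (‖DF m 1 lam y‖ * y ^ (-((m : ℝ) / 2) - 1) * wK m (kp m N) J y)

/-! ### the three lattices -/

/-- the inequality for the exponents -/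
def T_IN3 : Prop := ∀ (m : ℕ) (x y z : Fin m → ℝ), Monotone x → Monotone y → Monotone z →
  (∀ i, y i ≤ x i) → (∀ i, y i ≤ z i) →
    ∑ i, ∑ j, (max (y j - x i) 0 + max (y j - z i) 0 + max (x i - z j) 0) ≤
      m * max (∑ i, x i - ∑ i, z i) 0 +
        ∑ i, ∑ j, (if i < j then (x j - x i) + (y j - y i) + (z j - z i) else 0)

/-- the product estimate -/
def T_EG3 : Prop := ∀ (m : ℕ) (c : ℝ), 1 ≤ m → 0 < c → ∃ C : ℝ, 0 < C ∧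
  ∀ (U B A : Fin m → ℝ) (Q w : ℝ), (∀ i, 0 < U i) → (∀ i, 0 < B i) → (∀ i, 0 < A i) →
    Monotone U → Monotone B → Monotone A → 0 < Q → 0 < w →
    (∀ i, A i ≤ c * U i) → (∀ i, A i ≤ c * B i) → ∏ i, U i ≤ c * w * ∏ i, A i →
    ∏ i, B i ≤ c * Q * ∏ i, A i → Q * ∏ i, A i ≤ c * ∏ i, B i →
    ∏ i, ∏ j, ((1 + U i / A j) * (1 + B i / A j) * (1 + U i / B j)) ≤
      C * w ^ m * Q ^ m * (1 + w / Q) ^ m * skw A * skw U * skw B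

open Classical in
/-- the integer matrices in an increasing box with a given determinant -/
def T_CNX : Prop := ∀ m : ℕ, 1 ≤ m → ∀ ε : ℝ, 0 < ε → ∃ C : ℝ, 0 < C ∧
  ∀ (N : ℕ), 1 ≤ N → ∀ (b n : Mat m) (a : Fin m → ℝ) (k : Mat m), Sgl b n a k →
  ∀ R : Fin m → ℝ, (∀ i, 0 < R i) → Monotone R →
    ∑' x : ZM m, (if x.det.natAbs = N ∧ inBox b R x then (1 : ENNReal) else 0) ≤
      ENNReal.ofReal (C * (N : ℝ) ^ (ε - 1) * ∏ i, ∏ j, (1 + R i / a j))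

open Classical in
/-- the energy of two sublattices -/
def T_EGM : Prop := ∀ m : ℕ, 1 ≤ m → ∀ C0 ε : ℝ, 0 ≤ C0 → 0 < ε → ∃ (C : ℝ) (K : ℕ), 0 < C ∧
  ∀ (N : ℕ), 1 ≤ N → ∀ (b n : Mat m) (a : Fin m → ℝ) (k : Mat m), Sgl b n a k →
  1 ≤ aN b → aN b < Real.exp 1 → ∀ Y : ℝ, 1 ≤ Y →
  (∀ i j : Fin m, (i : ℕ) + 1 = j → a j ≤ Y * a i) → ∀ y : ℝ, 1 ≤ y →
  ∀ (sel : AddSubgroup (Fin m → ℤ) → ZM m) (vs : AddSubgroup (Fin m → ℤ) → Fin m → ℝ),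
  Sel b sel vs →
    ∑' M : AddSubgroup (Fin m → ℤ), ∑' L : AddSubgroup (Fin m → ℤ),
      (if M.index = N ∧ y ^ 2 / 4 < (L.index : ℝ) ∧ (L.index : ℝ) ≤ y ^ 2 then
        (NL (sel L) : ENNReal) ^ 2 * ENNReal.ofReal (∏ i, ∏ j, (1 + C0 * vs L i / vs M j))
          else 0) ≤
      ENNReal.ofReal (C * (1 + Real.log (y * Y * N)) ^ K * (N : ℝ) ^ ((m : ℝ) - 1 + ε) *
        y ^ (2 * m) * (1 + y ^ 2 / N) ^ m * skw a)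

/-! ### the kernels -/

/-- measurability of the kernels -/
def T_MKU : Prop := ∀ (m N : ℕ) (y : ℝ) (x w : VN m N), 1 ≤ m →
  Measurable (fun p : V m × V m => Pu y (mt p.1) x (mt p.2) w) ∧
  ∀ Φ : Mat m → ℂ, Tst m Φ →
    Measurable (fun p : V m × V m => Cu Φ y (mt p.1) x (mt p.2) w)

open Classical in
/-- the operator as an integral operator, and its majorant -/
def T_CKU : Prop := ∀ (m N : ℕ) [NeZero N] (χ : ℝ → ℝ) (δ : ℝ), 1 ≤ m → 2 ≤ N → Prof χ →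
  0 < δ → δ ≤ 1 / 2 → ∀ y : ℝ,
    (∀ (g h : Mat m) (x w : VN m N),
      ENNReal.ofReal ‖Cu (bump m χ δ) y g x h w‖ ≤ Pu y g x h w) ∧
    ∀ (F : VN m N → ℂ), (∀ x, ¬ Pr x → F x = 0) → ∀ (g h : Mat m) (x : VN m N),
      g.det ≠ 0 → h.det ≠ 0 →
      ∑' α : ZM m, (if y / 2 < (α.det.natAbs : ℝ) ∧ (α.det.natAbs : ℝ) ≤ y then
        bump m χ δ (kk (aN (cR α)) h (cR α) g) * F (ac N α x) else 0) =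
      ∑ w : VN m N, Cu (bump m χ δ) y g x h w * F w

/-- the kernel of one operator is integrable over the domain -/
def T_FCU : Prop := ∀ (m N : ℕ) [NeZero N] (T : ℕ → Finset (ZM m)) (D : Set (V m)),
  SysZ m N T D → ∀ (y : ℝ) (g : Mat m) (x : VN m N), g.det ≠ 0 →
    ∫⁻ h in D, ∑ w : VN m N, Pu y g x (mt h) w ∂(hm m) < ⊤

/-- the Hilbert-Schmidt bound for an orthonormal family, outer variable in a subset -/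
def T_HSU : Prop := ∀ (m N : ℕ) [NeZero N] (T : ℕ → Finset (ZM m)) (D : Set (V m)),
  SysZ m N T D → ∀ (ι : Type) [Fintype ι] [DecidableEq ι] (F : ι → Mat m → VN m N → ℂ)
    (lam : ι → ℕ → ℂ) (mu : ι → Fin m → ℂ), (∀ i, EigU m N T (F i) (lam i) (mu i)) →
  Orthn D F → ∀ (χ : ℝ → ℝ) (δ : ℝ), Prof χ → 0 < δ → δ ≤ 1 / 2 → ∀ (y : ℝ) (S : Set (V m)),
  S ⊆ D → MeasurableSet S →
    ∑ i, ∑ x, ∫⁻ g in S, ENNReal.ofReal (‖opCu N (bump m χ δ) y D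
      (opCu N (bump m χ δ) y D (F i)) (mt g) x‖ ^ 2) ∂(hm m) ≤
      ∫⁻ g in S, Eu N D y (mt g) ∂(hm m)

/-- composition of two kernels -/
def T_H1U : Prop := ∀ m : ℕ, 1 ≤ m → ∃ C : ℝ, 0 < C ∧
  ∀ (N : ℕ) [NeZero N] (D : Set (V m)), 2 ≤ N → DomZ m D → ∀ y : ℝ, 0 < y →
  ∀ (g k : Mat m) (x z : VN m N), g.det ≠ 0 → k.det ≠ 0 →
    PPu D y g x k z ≤ ENNReal.ofReal C * Ku y g x k z

/-- number of the matrices with the same value at `x` and with bounded rows -/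
def T_CNU : Prop := ∀ (m : ℕ) (B : ℝ), 0 < B → ∃ C0 : ℝ, 0 ≤ C0 ∧ ∀ (N : ℕ) [NeZero N]
  (b n : Mat m) (a : Fin m → ℝ) (k : Mat m), 2 ≤ N → Sgl b n a k →
  ∀ (sel : AddSubgroup (Fin m → ℤ) → ZM m) (vs : AddSubgroup (Fin m → ℤ) → Fin m → ℝ),
  Sel b sel vs → ∀ (γ : ZM m) (v : Fin m → ℝ) (x : VN m N), Pr x →
  (∀ i, rowN (vb (γ i) b) ≤ v i) →
    {γ' : ZM m | ac N γ' x = ac N γ x ∧ ∀ i, rowN (vb (γ' i) b) ≤ B * rowN (vb (γ i) b)}.Finite ∧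
    ({γ' : ZM m | ac N γ' x = ac N γ x ∧
      ∀ i, rowN (vb (γ' i) b) ≤ B * rowN (vb (γ i) b)}.ncard : ℝ) ≤
      ∏ i, ∏ j, (1 + C0 * v i / vs (kl x) j)

open Classical in
/-- the square of the composed kernel -/
def T_H2U : Prop := ∀ m : ℕ, 1 ≤ m → ∃ C C0 : ℝ, 0 < C ∧ 0 ≤ C0 ∧
  ∀ (N : ℕ) [NeZero N] (D : Set (V m)), 2 ≤ N → DomZ m D → ∀ y : ℝ, 0 < y →
  ∀ (b n : Mat m) (a : Fin m → ℝ) (k : Mat m), Sgl b n a k →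
  ∀ (sel : AddSubgroup (Fin m → ℤ) → ZM m) (vs : AddSubgroup (Fin m → ℤ) → Fin m → ℝ),
  Sel b sel vs → ∀ x : VN m N, Pr x →
    ∫⁻ h in D, ∑ z : VN m N, (Ku y b x (mt h) z) ^ 2 ∂(hm m) ≤
      ENNReal.ofReal C * ∑' L : AddSubgroup (Fin m → ℤ),
        (if y ^ 2 / 4 < (L.index : ℝ) ∧ (L.index : ℝ) ≤ y ^ 2 then
          (NL (sel L) : ENNReal) ^ 2 *
            ENNReal.ofReal (∏ i, ∏ j, (1 + C0 * vs L i / vs (kl x) j)) else 0)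

/-- invariance of the energy -/
def T_EIE : Prop := ∀ (m N : ℕ) [NeZero N] (D : Set (V m)) (y : ℝ) (γ : ZM m) (g : Mat m),
  1 ≤ m → 2 ≤ N → IsUnit γ → Eu N D y (cR γ * g) = Eu N D y g

/-- the energy on `DY` -/
def T_ENU : Prop := ∀ m : ℕ, 1 ≤ m → ∀ ε : ℝ, 0 < ε → ∃ (C : ℝ) (K : ℕ), 0 < C ∧
  ∀ (N : ℕ) [NeZero N] (D : Set (V m)), 2 ≤ N → DomZ m D → ∀ y Y : ℝ, 1 ≤ y → 2 ≤ Y →
    ∫⁻ g in DY D Y, Eu N D y (mt g) ∂(hm m) ≤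
      ENNReal.ofReal (C * (N : ℝ) ^ ((m : ℝ) + ε) * (1 + Real.log (y * Y * N)) ^ K *
        y ^ (2 * m) * (1 + y ^ 2 / N) ^ m)

/-! ### the mass of cusp forms and the fourth moment of the sums of the eigenvalues -/

/-- a cusp form is small where a gap is large -/
def T_OSU : Prop := ∀ (m : ℕ) (χ : ℝ → ℝ), 1 ≤ m → Prof χ → ∃ (c C : ℝ) (A : ℕ), 0 < c ∧
  1 ≤ C ∧ ∀ (N : ℕ) [NeZero N] (T : ℕ → Finset (ZM m)) (F : Mat m → VN m N → ℂ) (lam : ℕ → ℂ)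
    (mu : Fin m → ℂ), 2 ≤ N → CuspU m N T F lam mu → ∀ δ : ℝ, 0 < δ → δ ≤ 1 / 2 →
  δ * (1 + ∑ j, ‖mu j‖) ≤ c → ∀ (b n : Mat m) (a : Fin m → ℝ) (k : Mat m), Sgl b n a k →
  ∀ i j : Fin m, (i : ℕ) + 1 = j → (N : ℝ) * a i ≤ a j → ∀ x : VN m N,
    ENNReal.ofReal ‖F b x‖ ≤ ENNReal.ofReal (C * δ⁻¹ ^ A * (N * a i / a j)) *
      ∫⁻ z in Zc m C, ENNReal.ofReal ‖F (b * (mt z)⁻¹) x‖ ∂(hm m)

/-- half of the mass of a cusp form is in `DY` -/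
def T_MSU : Prop := ∀ (m : ℕ) (χ : ℝ → ℝ), 1 ≤ m → Prof χ → ∃ (c C : ℝ) (A : ℕ), 0 < c ∧
  1 ≤ C ∧ ∀ (N : ℕ) [NeZero N] (T : ℕ → Finset (ZM m)) (D : Set (V m)), SysZ m N T D →
  ∀ (F : Mat m → VN m N → ℂ) (lam : ℕ → ℂ) (mu : Fin m → ℂ), CuspU m N T F lam mu →
  ∑ x, ∫⁻ z in D, ENNReal.ofReal (‖F (mt z) x‖ ^ 2) ∂(hm m) = 1 →
  ∀ δ : ℝ, 0 < δ → δ ≤ 1 / 2 → δ * (1 + ∑ j, ‖mu j‖) ≤ c →
  ∀ Y : ℝ, C * N * δ⁻¹ ^ A ≤ Y →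
    1 / 2 ≤ ∑ x, ∫⁻ z in DY D Y, ENNReal.ofReal (‖F (mt z) x‖ ^ 2) ∂(hm m)

/-- the fourth moment is bounded by the energy -/
def T_D4N : Prop := ∀ (m : ℕ) (χ : ℝ → ℝ), 1 ≤ m → Prof χ → ∃ (c C : ℝ) (A : ℕ), 0 < c ∧
  1 ≤ C ∧ ∀ (N : ℕ) [NeZero N] (T : ℕ → Finset (ZM m)) (D : Set (V m)), SysZ m N T D →
  ∀ (ι : Type) [Fintype ι] [DecidableEq ι] (F : ι → Mat m → VN m N → ℂ)
    (lam : ι → ℕ → ℂ) (mu : ι → Fin m → ℂ), (∀ i, CuspU m N T (F i) (lam i) (mu i)) →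
  Orthn D F → ∀ δ : ℝ, 0 < δ → δ ≤ 1 / 2 → (∀ i, δ * (1 + ∑ j, ‖mu i j‖) ≤ c) →
  ∀ y Y : ℝ, 1 ≤ y → C * N * δ⁻¹ ^ A ≤ Y →
    ENNReal.ofReal (∑ i, ‖DF m 1 (lam i) y‖ ^ 4) ≤ ENNReal.ofReal (C * δ⁻¹ ^ A) *
      ∫⁻ g in DY D Y, Eu N D y (mt g) ∂(hm m)

/-- the fourth moment of the sums of the eigenvalues -/
def T_D4U : Prop := ∀ (m : ℕ) (χ : ℝ → ℝ), 1 ≤ m → Prof χ → ∀ ε : ℝ, 0 < ε →
  ∃ (c C : ℝ) (A K : ℕ), 0 < c ∧ 0 < C ∧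
  ∀ (N : ℕ) [NeZero N] (T : ℕ → Finset (ZM m)) (D : Set (V m)), SysZ m N T D →
  ∀ (ι : Type) [Fintype ι] [DecidableEq ι] (F : ι → Mat m → VN m N → ℂ)
    (lam : ι → ℕ → ℂ) (mu : ι → Fin m → ℂ), (∀ i, CuspU m N T (F i) (lam i) (mu i)) →
  Orthn D F → ∀ δ : ℝ, 0 < δ → δ ≤ 1 / 2 → (∀ i, δ * (1 + ∑ j, ‖mu i j‖) ≤ c) →
  ∀ y : ℝ, 1 ≤ y →
    ∑ i, ‖DF m 1 (lam i) y‖ ^ 4 ≤ (C * δ⁻¹ ^ A * (N : ℝ) ^ ((m : ℝ) + ε) *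
      (1 + Real.log (N * δ⁻¹)) ^ K) * (1 + Real.log y) ^ K * y ^ (2 * m) *
        (1 + y ^ 2 / N) ^ m

/-- the fourth moment over an orthonormal family of level `N` -/
def T_MOU (B : ℕ → ℝ) : Prop := ∀ m : ℕ, 1 ≤ m → ∀ ε : ℝ, 0 < ε → ∃ C A : ℝ, 0 < C ∧ 0 < A ∧
  ∀ (N : ℕ) [NeZero N] (T : ℕ → Finset (ZM m)) (D : Set (V m)), SysZ m N T D →
  ∀ (ι : Type) [Fintype ι] [DecidableEq ι] (F : ι → Mat m → VN m N → ℂ) (lam : ι → ℕ → ℂ)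
    (mu : ι → Fin m → ℂ), (∀ i, CuspU m N T (F i) (lam i) (mu i)) →
    (∀ i j, (mu i j).re ≤ B m) → Orthn D F →
    ∃ L : ι → ℂ → ℂ, (∀ i, IsL m 1 (lam i) (L i)) ∧ ∀ t : ι → ℝ,
      ∑ i, (‖L i (1 / 2 + t i * Complex.I)‖ * psz (t i) (mu i) ^ (-A)) ^ 4 ≤
        C * (N : ℝ) ^ ((m : ℝ) + ε)

/-- the L-function of a form is entire -/
def T_ENT : Prop := ∀ (m N : ℕ) [NeZero N] (T : ℕ → Finset (ZM m)) (D : Set (V m)),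
  SysZ m N T D → ∀ (F : Mat m → VN m N → ℂ) (lam : ℕ → ℂ) (mu : Fin m → ℂ),
  CuspU m N T F lam mu → nU D F ≠ 0 → ∃ L : ℂ → ℂ, IsL m 1 lam L ∧
    ∀ L' : ℂ → ℂ, IsL m 1 lam L' → ∀ Φ : Mat m → ℂ, TstS m Φ → ∀ s : ℂ,
      Lm 1 Φ mu lam s = L' s * Zf Φ mu s

end Pool.Agent.H34.GU
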