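import Pool.Agent.H18.GZ.Targets3
import Pool.Agent.H16.GZ.Targets4

/-!
Definitions of the board gu: the fourth moment over the universal family of `GL_m` ordered by the
conductor, spherical at infinity (page H34_GU.md).
-/

namespace Pool.Agent.H34.GU

open MeasureTheory Pool.Agent.H34.GM Pool.Agent.H34.GZ

/-- vectors modulo `N` -/
abbrev VN (m N : ℕ) := Fin m → ZMod N

/-- the scalar product -/
def dt {m N : ℕ} (v y : VN m N) : ZMod N := ∑ i, v i * y i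

/-- primitive vectors modulo `N` -/
def Pr {m N : ℕ} (x : VN m N) : Prop := ∃ u : VN m N, dt u x = 1

/-- the action of the integer matrices on the vectors modulo `N` -/
def ac {m : ℕ} (N : ℕ) (α : ZM m) (x : VN m N) : VN m N := (cQ N α).mulVec x

/-- the additive character of `Z/N` -/
noncomputable def psn (N : ℕ) (a : ZMod N) : ℂ := ee ((a.val : ℝ) / N)

/-- the real number `N ^ (1/m)` -/
noncomputable def kp (m N : ℕ) : ℝ := (N : ℝ) ^ (1 / (m : ℝ))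

/-- bounded Hecke eigenforms on `GL_m(Z) \ (GL_m(R) × primitive vectors mod N)`, spherical at
infinity -/
structure EigU (m N : ℕ) [NeZero N] (T : ℕ → Finset (ZM m)) (F : Mat m → VN m N → ℂ)
    (lam : ℕ → ℂ) (mu : Fin m → ℂ) : Prop where
  cont : ∀ x, ContinuousOn (fun g => F g x) {g | g.det ≠ 0}
  supp : ∀ g x, ¬ Pr x → F g x = 0
  auto : ∀ γ : ZM m, IsUnit γ → ∀ g x, g.det ≠ 0 → F (cR γ * g) (ac N γ x) = F g x
  scal : ∀ r : ℝ, 0 < r → ∀ g x, g.det ≠ 0 → F (r • g) x = F g x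
  orth : ∀ k : Mat m, k * k.transpose = 1 → ∀ g x, g.det ≠ 0 → F (g * k) x = F g x
  hecke : ∀ n : ℕ, 1 ≤ n → ∀ g x, g.det ≠ 0 →
    ∑ α ∈ T n, F (cR α * g) (ac N α x) = (n : ℂ) ^ (((m : ℂ) - 1) / 2) * lam n * F g x
  tr0 : ∑ j, mu j = 0
  arch : ∀ k : Mat m → ℂ, Tst m k → ∀ g x, g.det ≠ 0 →
    ∫ z, k (mt z) * F (g * (mt z)⁻¹) x ∂(hm m) = F g x * ∫ z, k (mt z) * pw mu (mt z) ∂(hm m)
  bdd : ∃ B : ℝ, ∀ g x, g.det ≠ 0 → ‖F g x‖ ≤ B

/-- cusp forms, primitive at `N` -/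
structure CuspU (m N : ℕ) [NeZero N] (T : ℕ → Finset (ZM m)) (F : Mat m → VN m N → ℂ)
    (lam : ℕ → ℂ) (mu : Fin m → ℂ) : Prop extends EigU m N T F lam mu where
  prim : ∀ v : VN m N, ¬ Pr v → ∀ g, g.det ≠ 0 → ∑ y, psn N (dt v y) * F g y = 0
  cusp : ∀ k : ℕ, 0 < k → k < m → ∀ g x, g.det ≠ 0 →
    ∫ u in Set.Icc (0 : V m) 1, F ((1 + (N : ℝ) • nk k u) * g) x = 0

/-- the square of the norm -/
noncomputable def nU {m N : ℕ} [NeZero N] (D : Set (V m)) (F : Mat m → VN m N → ℂ) : ℝ :=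
  ∑ x, ∫ z in D, ‖F (mt z) x‖ ^ 2 ∂(hm m)

/-! ### operators -/

/-- the operator `A_r` -/
noncomputable def opAu {m : ℕ} (N : ℕ) (Φ : Mat m → ℂ) (r : ℝ) (D : Set (V m))
    (F : Mat m → VN m N → ℂ) (g : Mat m) (x : VN m N) : ℂ :=
  ∫ z in D, ∑' α : ZM m, Φ (kk r (mt z) (cR α) g) * F (mt z) (ac N α x) ∂(hm m)

open Classical in
/-- the operator with the determinant decoupled -/
noncomputable def opCu {m : ℕ} (N : ℕ) (Φ : Mat m → ℂ) (y : ℝ) (D : Set (V m))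
    (F : Mat m → VN m N → ℂ) (g : Mat m) (x : VN m N) : ℂ :=
  ∫ z in D, ∑' α : ZM m, (if y / 2 < (α.det.natAbs : ℝ) ∧ (α.det.natAbs : ℝ) ≤ y then
    Φ (kk (aN (cR α)) (mt z) (cR α) g) * F (mt z) (ac N α x) else 0) ∂(hm m)

/-- the dual eigenvalue, `κ = N ^ (1/m)` -/
noncomputable def thDu {m : ℕ} (κ : ℝ) (Φ : Mat m → ℂ) (mu : Fin m → ℂ) (lam : ℕ → ℂ) (r : ℝ) : ℂ :=
  ((κ ^ ((m : ℝ) ^ 2 / 2) * (κ / r) ^ (-((m : ℝ) ^ 2)) : ℝ) : ℂ) * thF 1 Φ mu lam (κ / r)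

/-- the weight, `κ = N ^ (1/m)` -/
noncomputable def wK (m : ℕ) (κ J y : ℝ) : ℝ := min 1 ((κ ^ ((m : ℝ) / 2) / y) ^ J)

/-! ### kernels -/

open Classical in
/-- the kernel of the operator `opCu` -/
noncomputable def Cu {m N : ℕ} (Φ : Mat m → ℂ) (y : ℝ) (g : Mat m) (x : VN m N) (h : Mat m)
    (w : VN m N) : ℂ :=
  ∑' α : ZM m, if ac N α x = w ∧ Pr w ∧ y / 2 < (α.det.natAbs : ℝ) ∧
    (α.det.natAbs : ℝ) ≤ y then Φ (kk (aN (cR α)) h (cR α) g) else 0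

open Classical in
/-- the kernel of one operator -/
noncomputable def Pu {m N : ℕ} (y : ℝ) (g : Mat m) (x : VN m N) (h : Mat m) (w : VN m N) :
    ENNReal :=
  ∑' α : ZM m, if ac N α x = w ∧ Pr w ∧ y / 2 < (α.det.natAbs : ℝ) ∧
    (α.det.natAbs : ℝ) ≤ y ∧ sz (kk (aN (cR α)) h (cR α) g) ≤ 2 then 1 else 0

open Classical in
/-- the majorant of the composed kernel -/
noncomputable def Ku {m N : ℕ} (y : ℝ) (g : Mat m) (x : VN m N) (h : Mat m) (w : VN m N) :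
    ENNReal :=
  ∑' γ : ZM m, if ac N γ x = w ∧ Pr w ∧ y ^ 2 / 4 < (γ.det.natAbs : ℝ) ∧
    (γ.det.natAbs : ℝ) ≤ y ^ 2 ∧ sz (kk (aN (cR γ)) h (cR γ) g) ≤ 4 * m then (NL γ : ENNReal) else 0

/-- the composed kernel -/
noncomputable def PPu {m N : ℕ} [NeZero N] (D : Set (V m)) (y : ℝ) (g : Mat m) (x : VN m N)
    (k : Mat m) (z : VN m N) : ENNReal :=
  ∫⁻ h in D, ∑ w : VN m N, Pu y g x (mt h) w * Pu y (mt h) w k z ∂(hm m)

/-- the energy at `g` -/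
noncomputable def Eu {m : ℕ} (N : ℕ) [NeZero N] (D : Set (V m)) (y : ℝ) (g : Mat m) : ENNReal :=
  ∑ x : VN m N, ∫⁻ k in D, ∑ z : VN m N, (PPu D y g x (mt k) z) ^ 2 ∂(hm m)

/-! ### lattices -/

/-- the kernel lattice of a vector modulo `N` -/
def kl {m N : ℕ} (x : VN m N) : AddSubgroup (Fin m → ℤ) where
  carrier := {c | ∑ i, (c i : ZMod N) * x i = 0}
  add_mem' := by
    intro a b ha hb
    simp only [Set.mem_ofPred_eq, Pi.add_apply, Int.cast_add, add_mul, Finset.sum_add_distrib] at *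
    rw [ha, hb, add_zero]
  zero_mem' := by simp
  neg_mem' := by
    intro a ha
    simp only [Set.mem_ofPred_eq, Pi.neg_apply, Int.cast_neg, neg_mul, Finset.sum_neg_distrib] at *
    rw [ha, neg_zero]

/-- a choice for the Fricke correspondence: the rows of `H v` span `N Z^m + Z v` -/
structure Frk (m N : ℕ) (H : VN m N → ZM m) (xv : VN m N → VN m N) : Prop where
  pr : ∀ v, Pr v → Pr (xv v)
  red : ∀ v, Pr v → cQ N (H v) = Matrix.vecMulVec (xv v) v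
  det : ∀ v, Pr v → (H v).det.natAbs = N ^ (m - 1)
  dvd : ∀ v, Pr v → ∀ (β : ZM m) (x : VN m N), cQ N β = Matrix.vecMulVec x v →
    ∃ φ : ZM m, β = φ * H v ∧ ac N φ (xv v) = x

end Pool.Agent.H34.GU
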