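import Pool.Agent.H34.GZ.Fin
import Pool.Agent.H76.GU.Targets
import Pool.Agent.H1.GU.CNU
import Pool.Agent.H11.GU.FTH
import Pool.Agent.H11.GU.HLU
import Pool.Agent.H11.GU.MKU
import Pool.Agent.H13.GU.KAP
import Pool.Agent.H17.GU.ADU
import Pool.Agent.H17.GU.AVG
import Pool.Agent.H20.GU.CNX
import Pool.Agent.H23.GU.SNU
import Pool.Agent.H25.GU.SNW
import Pool.Agent.H27.GU.THT
import Pool.Agent.H30.GU.EG3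
import Pool.Agent.H30.GU.FR1
import Pool.Agent.H30.GU.POU
import Pool.Agent.H32.GU.ABU
import Pool.Agent.H35.GU.EIU
import Pool.Agent.H36.GU.CKU
import Pool.Agent.H36.GU.EIE
import Pool.Agent.H36.GU.FCU
import Pool.Agent.H38.GU.D4N
import Pool.Agent.H38.GU.D4U
import Pool.Agent.H40.GUM.ALU
import Pool.Agent.H40.GUM.PSU
import Pool.Agent.H46.GU.ENT
import Pool.Agent.H46.GU.MSU
import Pool.Agent.H47.GU.OSU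
import Pool.Agent.H49.GU.ENU
import Pool.Agent.H5.GU.LMU
import Pool.Agent.H50.GU.EGN
import Pool.Agent.H53.GU.SGV
import Pool.Agent.H55.GV.EZU
import Pool.Agent.H55.GV.OMG
import Pool.Agent.H57.GU.EGC
import Pool.Agent.H60.GU.MX2
import Pool.Agent.H61.GU.HSU
import Pool.Agent.H63.GU.ADQ
import Pool.Agent.H64.GU.PER
import Pool.Agent.H67.GU.APU
import Pool.Agent.H67.GU.BLK
import Pool.Agent.H67.GU.OCU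
import Pool.Agent.H69.GU.SMU
import Pool.Agent.H69.GU.SPV
import Pool.Agent.H69.GU.SPW
import Pool.Agent.H72.GU.EGM
import Pool.Agent.H75.GU.DYU
import Pool.Agent.H75.GU.SNA
import Pool.Agent.H76.GU.UNK
import Pool.Agent.H8.GU.H1U
import Pool.Agent.H80.GU.ORB
import Pool.Agent.H84.GU.FR2
import Pool.Agent.H84.GU.IN3
import Pool.Agent.H84.GU.RHO
import Pool.Agent.H88.GU.ADC
import Pool.Agent.H91.GU.H2U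
import Pool.Agent.H94.GU.DC1
import Pool.Agent.H95.GU.AC1
import Pool.Agent.H96.GU.THS

/-!
All rows of the board gu: the fourth moment over the forms of level N
(MP_52e316_nt).
-/

namespace Pool.Agent.H34.GU

open Pool.Agent.H34.GZ

theorem b_ABU  : Pool.Agent.H34.GU.T_ABU := Pool.Agent.H32.GU.pf_ABU Pool.Agent.H34.GZ.a_ABS
theorem b_THT  : Pool.Agent.H76.GU.T_THT := Pool.Agent.H27.GU.pf_THT Pool.Agent.H34.GZ.a_CNT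
theorem b_OSU  : Pool.Agent.H34.GU.T_OSU := Pool.Agent.H47.GU.pf_OSU Pool.Agent.H34.GZ.g_ZLB Pool.Agent.H34.GZ.g_HAC Pool.Agent.H34.GZ.g_HAR Pool.Agent.H34.GZ.g_BMP Pool.Agent.H34.GZ.a_CUB Pool.Agent.H34.GZ.a_LPB
theorem b_DC1  : Pool.Agent.H76.GU.T_DC1 := Pool.Agent.H94.GU.pf_DC1 Pool.Agent.H34.GZ.g_HAR Pool.Agent.H34.GZ.g_MSR Pool.Agent.H34.GM.pf_PRF b_OSU
theorem b_FTH  : Pool.Agent.H76.GU.T_FTH := Pool.Agent.H11.GU.pf_FTH b_DC1 Pool.Agent.H34.GZ.a_VLM Pool.Agent.H34.GZ.a_DYM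
theorem b_AC1  : Pool.Agent.H76.GU.T_AC1 := Pool.Agent.H95.GU.pf_AC1 b_THT b_FTH Pool.Agent.H34.GZ.a_RED Pool.Agent.H34.GZ.a_GSU
theorem b_ADC  : Pool.Agent.H76.GU.T_ADC := Pool.Agent.H88.GU.pf_ADC b_THT b_FTH Pool.Agent.H34.GZ.a_GSU Pool.Agent.H34.GZ.g_MSR Pool.Agent.H34.GZ.a_ALZ
theorem b_PSU  : Pool.Agent.H34.GU.T_PSU := Pool.Agent.H40.GUM.pf_PSU 
theorem b_POU  : Pool.Agent.H34.GU.T_POU := Pool.Agent.H30.GU.pf_POU Pool.Agent.H34.GZ.a_POZ b_PSU Pool.Agent.H34.GZ.a_PSZ Pool.Agent.H34.GZ.a_ALZ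
theorem b_ADQ  : Pool.Agent.H34.GU.T_ADQ := Pool.Agent.H63.GU.pf_ADQ b_POU Pool.Agent.H34.GZ.a_POZ
theorem b_ALU  : Pool.Agent.H34.GU.T_ALU := Pool.Agent.H40.GUM.pf_ALU 
theorem b_EZU  : Pool.Agent.H34.GU.T_EZU := Pool.Agent.H55.GV.pf_EZU Pool.Agent.H34.GZ.g_MSR Pool.Agent.H34.GZ.g_HAR Pool.Agent.H34.GZ.g_HAC Pool.Agent.H34.GZ.g_PLC Pool.Agent.H34.GZ.g_PWC
theorem b_EIU  : Pool.Agent.H34.GU.T_EIU := Pool.Agent.H35.GU.pf_EIU Pool.Agent.H34.GZ.a_ALZ b_ALU Pool.Agent.H34.GZ.a_UNZ Pool.Agent.H34.GZ.g_TH1 b_EZU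
theorem b_LMU  : Pool.Agent.H34.GU.T_LMU := Pool.Agent.H5.GU.pf_LMU b_ALU Pool.Agent.H34.GZ.a_TNZ
theorem b_EGN  : Pool.Agent.H76.GU.T_EGN := Pool.Agent.H50.GU.pf_EGN b_EIU Pool.Agent.H34.GZ.a_CUT Pool.Agent.H34.GZ.a_TNL Pool.Agent.H34.GZ.a_THW b_LMU Pool.Agent.H34.GZ.a_ALZ Pool.Agent.H34.GZ.g_MSR
theorem b_SNA  : Pool.Agent.H34.GU.T_SNA := Pool.Agent.H75.GU.pf_SNA 
theorem b_ORB  : Pool.Agent.H76.GU.T_ORB := Pool.Agent.H80.GU.pf_ORB b_SNA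
theorem b_UNK  : Pool.Agent.H76.GU.T_UNK := Pool.Agent.H76.GU.pf_UNK Pool.Agent.H34.GZ.a_UNZ b_ORB
theorem b_AVG  : Pool.Agent.H76.GU.T_AVG := Pool.Agent.H17.GU.pf_AVG Pool.Agent.H34.GZ.g_HAR
theorem b_PER  : Pool.Agent.H76.GU.T_PER := Pool.Agent.H64.GU.pf_PER 
theorem b_BLK  : Pool.Agent.H76.GU.T_BLK := Pool.Agent.H67.GU.pf_BLK 
theorem b_KAP  : Pool.Agent.H76.GU.T_KAP := Pool.Agent.H13.GU.pf_KAP 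
theorem b_OMG  : Pool.Agent.H76.GU.T_OMG := Pool.Agent.H55.GV.pf_OMG 
theorem b_RHO  : Pool.Agent.H76.GU.T_RHO := Pool.Agent.H84.GU.pf_RHO b_BLK b_KAP b_OMG
theorem b_SGV  : Pool.Agent.H76.GU.T_SGV := Pool.Agent.H53.GU.pf_SGV b_UNK b_AVG b_PER b_RHO b_ORB b_BLK b_AC1 b_ALU
theorem b_EGC  : Pool.Agent.H76.GU.T_EGC := Pool.Agent.H57.GU.pf_EGC b_EGN b_SGV b_AC1
theorem b_FR1  : Pool.Agent.H34.GU.T_FR1 := Pool.Agent.H30.GU.pf_FR1 Pool.Agent.H34.GZ.a_IDX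
theorem b_FR2  : Pool.Agent.H34.GU.T_FR2 := Pool.Agent.H84.GU.pf_FR2 Pool.Agent.H34.GZ.g_HAR Pool.Agent.H34.GZ.g_MSR Pool.Agent.H34.GZ.a_UNZ
theorem b_ADU  : Pool.Agent.H34.GU.T_ADU := Pool.Agent.H17.GU.pf_ADU b_EIU b_EGC b_AC1 b_ADQ b_ADC Pool.Agent.H34.GZ.a_FTG Pool.Agent.H34.GZ.a_VLM b_PSU b_FR1 b_FR2 Pool.Agent.H34.GZ.g_MSR
theorem b_APU  : Pool.Agent.H34.GU.T_APU := Pool.Agent.H67.GU.pf_APU Pool.Agent.H34.GZ.g_HAR Pool.Agent.H34.GZ.a_AP2 Pool.Agent.H34.GZ.a_GAU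
theorem b_CKU  : Pool.Agent.H34.GU.T_CKU := Pool.Agent.H36.GU.pf_CKU 
theorem b_KLI  : Pool.Agent.H34.GU.T_KLI := Pool.Agent.H40.GUM.pf_KLI 
theorem b_CNU  : Pool.Agent.H34.GU.T_CNU := Pool.Agent.H1.GU.pf_CNU Pool.Agent.H34.GZ.a_CNT b_KLI Pool.Agent.H34.GZ.a_IDX
theorem b_CNX  : Pool.Agent.H34.GU.T_CNX := Pool.Agent.H20.GU.pf_CNX Pool.Agent.H34.GZ.a_CNT Pool.Agent.H34.GZ.a_ADB
theorem b_MKU  : Pool.Agent.H34.GU.T_MKU := Pool.Agent.H11.GU.pf_MKU 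
theorem b_FCU  : Pool.Agent.H34.GU.T_FCU := Pool.Agent.H36.GU.pf_FCU Pool.Agent.H34.GZ.a_UNL Pool.Agent.H34.GZ.a_SHB Pool.Agent.H34.GZ.a_SEX
theorem b_OCU  : Pool.Agent.H34.GU.T_OCU := Pool.Agent.H67.GU.pf_OCU Pool.Agent.H34.GZ.a_UNZ b_EZU b_ALU Pool.Agent.H34.GZ.a_ALZ
theorem b_HSU  : Pool.Agent.H34.GU.T_HSU := Pool.Agent.H61.GU.pf_HSU Pool.Agent.H34.GZ.g_BMP Pool.Agent.H34.GZ.a_BE2 b_CKU b_MKU b_FCU b_OCU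
theorem b_MSU  : Pool.Agent.H34.GU.T_MSU := Pool.Agent.H46.GU.pf_MSU Pool.Agent.H34.GZ.g_HAR Pool.Agent.H34.GZ.g_MSR b_OSU Pool.Agent.H34.GZ.a_RTI Pool.Agent.H34.GZ.a_DYM b_ALU
theorem b_D4N  : Pool.Agent.H34.GU.T_D4N := Pool.Agent.H38.GU.pf_D4N b_HSU b_OCU Pool.Agent.H34.GZ.a_TLB b_MSU Pool.Agent.H34.GZ.a_DYM Pool.Agent.H34.GZ.g_BMP
theorem b_H1U  : Pool.Agent.H34.GU.T_H1U := Pool.Agent.H8.GU.pf_H1U Pool.Agent.H34.GZ.a_UNL Pool.Agent.H34.GZ.a_SHB Pool.Agent.H34.GZ.a_SEX Pool.Agent.H34.GZ.a_IDX b_ALU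
theorem b_H2U  : Pool.Agent.H34.GU.T_H2U := Pool.Agent.H91.GU.pf_H2U Pool.Agent.H34.GZ.a_UNL Pool.Agent.H34.GZ.a_SHB Pool.Agent.H34.GZ.a_CLO b_CNU Pool.Agent.H34.GZ.a_CNT b_ALU Pool.Agent.H34.GZ.a_ALZ Pool.Agent.H34.GZ.a_IDX
theorem b_EIE  : Pool.Agent.H34.GU.T_EIE := Pool.Agent.H36.GU.pf_EIE Pool.Agent.H34.GZ.a_ALZ b_ALU
theorem b_IN3  : Pool.Agent.H34.GU.T_IN3 := Pool.Agent.H84.GU.pf_IN3 
theorem b_EG3  : Pool.Agent.H34.GU.T_EG3 := Pool.Agent.H30.GU.pf_EG3 b_IN3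
theorem b_EGM  : Pool.Agent.H34.GU.T_EGM := Pool.Agent.H72.GU.pf_EGM b_EG3 b_CNX Pool.Agent.H34.GZ.a_CNT Pool.Agent.H34.GZ.a_CMA Pool.Agent.H34.GZ.a_IDX Pool.Agent.H34.GZ.a_DAV Pool.Agent.H34.GZ.a_MUL
theorem b_ENU  : Pool.Agent.H34.GU.T_ENU := Pool.Agent.H49.GU.pf_ENU b_H1U b_H2U b_EIE b_EGM b_KLI Pool.Agent.H34.GZ.a_VLM Pool.Agent.H34.GZ.a_SEX Pool.Agent.H34.GZ.a_DYM b_ALU Pool.Agent.H34.GZ.a_ALZ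
theorem b_D4U  : Pool.Agent.H34.GU.T_D4U := Pool.Agent.H38.GU.pf_D4U b_D4N b_ENU
theorem b_DYU  : Pool.Agent.H34.GU.T_DYU := Pool.Agent.H75.GU.pf_DYU 
theorem b_SMU  : Pool.Agent.H34.GU.T_SMU := Pool.Agent.H69.GU.pf_SMU b_ADU Pool.Agent.H34.GZ.a_THW b_LMU Pool.Agent.H34.GZ.a_FTG Pool.Agent.H34.GZ.g_THC
theorem b_ENT  : Pool.Agent.H34.GU.T_ENT := Pool.Agent.H46.GU.pf_ENT Pool.Agent.H34.GM.pf_PRF Pool.Agent.H34.GZ.g_BMP b_LMU Pool.Agent.H34.GZ.a_GLZ b_SMU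
theorem b_HLU  : Pool.Agent.H34.GU.T_HLU := Pool.Agent.H11.GU.pf_HLU 
theorem b_MX2  : Pool.Agent.H76.GU.T_MX2 := Pool.Agent.H60.GU.pf_MX2 b_IN3
theorem b_SNW  : Pool.Agent.H34.GU.T_SNW := Pool.Agent.H25.GU.pf_SNW 
theorem b_SNU  : Pool.Agent.H34.GU.T_SNU := Pool.Agent.H23.GU.pf_SNU b_SNA b_SNW Pool.Agent.H34.GZ.a_UNZ Pool.Agent.H34.GZ.g_HAR
theorem b_SPV  : Pool.Agent.H34.GU.T_SPV := Pool.Agent.H69.GU.pf_SPV Pool.Agent.H34.GZ.g_THC Pool.Agent.H34.GZ.g_CON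
theorem b_SPW  : Pool.Agent.H34.GU.T_SPW := Pool.Agent.H69.GU.pf_SPW b_ABU b_DYU b_ADU b_SMU b_SPV b_LMU
theorem b_THS  : Pool.Agent.H76.GU.T_THS := Pool.Agent.H96.GU.pf_THS Pool.Agent.H34.GZ.a_CNT

end Pool.Agent.H34.GU
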