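import Pool.Agent.H28.GU.TargetsC
import Pool.Agent.H34.BSG

/-!
Row BSG of the project GU (`MP_c59857_nt`): the theorem of Balog, Szemerédi and Gowers.
-/

set_option autoImplicit false

open Finset
open scoped Pointwise

namespace Pool.Agent.H34.GU

open Pool.Agent.H28.GU

theorem pf_BSG : T_BSG := by
  intro δ hδ
  refine ⟨δ / 8, 2 ^ 19 / δ ^ 9, by positivity, by positivity, fun G _ _ A hA hE => ?_⟩
  obtain ⟨A', h1, h2, h3⟩ := Pool.Agent.H34.BSG.bsg A δ hδ hA hE
  exact ⟨A', h1, h2, h3⟩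

end Pool.Agent.H34.GU
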