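import Pool.Agent.H28.GU.TargetsC

/-!
Row NR of the project GU (`MP_c59857_nt`): the norm `nr`.
-/

set_option autoImplicit false

open Finset

namespace Pool.Agent.H34.GU

open Pool.Agent.H28.GU

theorem nr_eq {q : ℕ} (x : ZMod q) : nr x = ((x.valMinAbs.natAbs : ℕ) : ℝ) / q := by
  unfold nr
  rw [Nat.cast_natAbs, Int.cast_abs]

theorem pf_NR : T_NR := by
  intro q _
  have hq : (0 : ℝ) < q := by exact_mod_cast Nat.pos_of_ne_zero (NeZero.ne q)
  have hadd : ∀ x y : ZMod q, nr (x + y) ≤ nr x + nr y := by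
    intro x y
    rw [nr_eq, nr_eq, nr_eq, ← add_div]
    refine div_le_div_of_nonneg_right ?_ hq.le
    have h1 := (ZMod.natAbs_valMinAbs_add_le x y).trans (Int.natAbs_add_le _ _)
    exact_mod_cast h1
  have hnn : ∀ x : ZMod q, 0 ≤ nr x := by
    intro x
    unfold nr
    positivity
  refine ⟨fun x => ⟨hnn x, ?_⟩, fun x => ?_, hadd, fun n x => ?_, fun x hx => ?_⟩
  · unfold nr
    rw [div_le_iff₀ hq]
    obtain ⟨h1, h2⟩ := ZMod.valMinAbs_mem_Ioc x
    have h3 : |((x.valMinAbs : ℤ) : ℝ)| * 2 ≤ q := by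
      have h4 : |x.valMinAbs * 2| ≤ (q : ℤ) := abs_le.2 ⟨h1.le, h2⟩
      have h5 : ((|x.valMinAbs * 2| : ℤ) : ℝ) ≤ ((q : ℤ) : ℝ) := by exact_mod_cast h4
      rw [Int.cast_abs, Int.cast_mul, abs_mul] at h5
      simpa using h5
    linarith
  · rw [nr_eq, nr_eq, ZMod.natAbs_valMinAbs_neg]
  · induction n with
    | zero => simp [nr]
    | succ n ih =>
      have e : ((n + 1 : ℕ) : ZMod q) * x = (n : ZMod q) * x + x := by
        push_cast
        ring
      rw [e]
      refine (hadd _ _).trans ?_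
      push_cast
      linarith
  · have h1 : (ZMod.stdAddChar x : ℂ) =
        Complex.exp (((2 * Real.pi * ((x.valMinAbs : ℤ) : ℝ) / q : ℝ) : ℂ) * Complex.I) := by
      conv_lhs => rw [← ZMod.coe_valMinAbs x]
      rw [ZMod.stdAddChar_coe]
      congr 1
      push_cast
      ring
    rw [h1, Complex.exp_ofReal_mul_I_re]
    apply Real.cos_nonneg_of_mem_Icc
    have h2 : |2 * Real.pi * ((x.valMinAbs : ℤ) : ℝ) / q| ≤ Real.pi / 2 := by
      have e : |2 * Real.pi * ((x.valMinAbs : ℤ) : ℝ) / q| = 2 * Real.pi * nr x := by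
        unfold nr
        rw [abs_div, abs_mul, abs_of_pos Real.two_pi_pos, abs_of_pos hq]
        ring
      rw [e]
      have h3 := mul_le_mul_of_nonneg_left hx Real.two_pi_pos.le
      linarith
    exact ⟨by linarith [(abs_le.1 h2).1], (abs_le.1 h2).2⟩

end Pool.Agent.H34.GU
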