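import Pool.Agent.H34.GU.All
import Pool.Agent.H34.GU.MOU

/-!
The final facts of the board gu (page H34_GU.md).
-/

namespace Pool.Agent.H34.GU

open Pool.Agent.H34.GM Pool.Agent.H34.GZ

theorem f_MOU : T_MOU (fun m => ((m : ℝ) - 1) / 2) :=
  pf_MOU _ Pool.Agent.H34.GM.pf_PRF b_ENT b_SPW b_HLU b_D4U (f_PHX _)

theorem f_APU : T_APU := b_APU

end Pool.Agent.H34.GU
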